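import Pool.Agent.helper78.HFN.Spec

/-!
# Project HFN (MP_3221a1_ag), row BZT: Bezout
-/

set_option autoImplicit false

open Polynomial Module

namespace Pool.Agent.HFN

noncomputable section

open Classical in
/-- the condition on the first derivatives -/
def BZT_tau (E : AA) (z : ℂ × ℂ) (g : AA) : ℂ :=
  if ev z (Dx E) = 0 ∧ ev z (Dy E) = 0 then ev z (Dx g) else ev z (Dy E) * ev z (Dx g) - ev z (Dx E) * ev z (Dy g)

/-- the linear map -/
def BZT_map (E : AA) (S S2 : Finset (ℂ × ℂ)) : AA →ₗ[ℂ] (({z // z ∈ S} → ℂ) × ({z // z ∈ S2} → ℂ)) where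
  toFun g := (fun z => ev z.1 g, fun z => BZT_tau E z.1 g)
  map_add' f g := by
    ext z
    · simp
    · simp only [BZT_tau, Prod.mk_add_mk, Pi.add_apply, Dx_add, Dy_add, ev_add]
      split_ifs
      · rfl
      · ring
  map_smul' c g := by
    ext z
    · simp
    · simp only [BZT_tau, Prod.smul_mk, Pi.smul_apply, Dx_smul, Dy_smul, ev_smul, smul_eq_mul, RingHom.id_apply]
      split_ifs
      · rfl
      · ring

/-- surjectivity -/
theorem BZT_surj (hINT : INT_stmt) (E : AA) (S S2 : Finset (ℂ × ℂ)) (hS : S2 ⊆ S) (M N : ℕ)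
    (hM : 2 * S.card ≤ M) (hN : 2 * S.card ≤ N) (v : ({z // z ∈ S} → ℂ) × ({z // z ∈ S2} → ℂ)) :
    ∃ g ∈ V M N, BZT_map E S S2 g = v := by
  classical
  obtain ⟨u, w⟩ := v
  let α : ℂ × ℂ → ℂ := fun z => if h : z ∈ S then u ⟨z, h⟩ else 0
  let ω : ℂ × ℂ → ℂ := fun z => if h : z ∈ S2 then w ⟨z, h⟩ else 0
  let β : ℂ × ℂ → ℂ := fun z =>
    if ev z (Dx E) = 0 ∧ ev z (Dy E) = 0 then ω z else if ev z (Dy E) = 0 then 0 else ω z / ev z (Dy E)
  let γ : ℂ × ℂ → ℂ := fun z =>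
    if ev z (Dy E) = 0 then - (ω z / ev z (Dx E)) else 0
  obtain ⟨g, hg, hz⟩ := hINT S α β γ M N hM hN
  refine ⟨g, hg, ?_⟩
  ext z
  · show ev z.1 g = u z
    rw [(hz z.1 z.2).1]
    simp only [α, dif_pos z.2]
  · show BZT_tau E z.1 g = w z
    have hw : ω z.1 = w z := by simp only [ω, dif_pos z.2]
    obtain ⟨-, h2, h3⟩ := hz z.1 (hS z.2)
    unfold BZT_tau
    rw [h2, h3]
    simp only [β, γ]
    by_cases hy : ev z.1 (Dy E) = 0
    · by_cases hx : ev z.1 (Dx E) = 0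
      · rw [if_pos ⟨hx, hy⟩, if_pos ⟨hx, hy⟩, hw]
      · rw [if_neg (fun h => hx h.1), if_neg (fun h => hx h.1), if_pos hy, if_pos hy, hw]
        field_simp
        ring
    · rw [if_neg (fun h => hy h.2), if_neg (fun h => hy h.2), if_neg hy, if_neg hy, hw]
      field_simp
      ring

theorem BZT (hCNQ : CNQ_stmt) (hINT : INT_stmt) : BZT_stmt := by
  classical
  intro E f hE hEf i j hf S2 S1 hdis hS2 hS1
  have hf0 : f ≠ 0 := by
    rintro rfl
    exact hEf (dvd_zero _)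
  have hE0 : E ≠ 0 := hE.ne_zero
  have hrp : IsRelPrime E f := hE.isRelPrime_iff_not_dvd.2 hEf
  obtain ⟨S, hSdef⟩ : ∃ S, S = S2 ∪ S1 := ⟨_, rfl⟩
  have hS2S : S2 ⊆ S := by
    rw [hSdef]
    exact Finset.subset_union_left
  have hcard : S.card = S2.card + S1.card := by
    rw [hSdef, Finset.card_union_of_disjoint hdis]
  obtain ⟨M, hM1, hM2⟩ : ∃ M, dX E + dX f ≤ M ∧ 2 * S.card ≤ M := ⟨max _ _, le_max_left _ _, le_max_right _ _⟩
  obtain ⟨N, hN1, hN2⟩ : ∃ N, dY E + dY f ≤ N ∧ 2 * S.card ≤ N := ⟨max _ _, le_max_left _ _, le_max_right _ _⟩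
  have hc := hCNQ E f hE0 hf0 hrp M N hM1 hN1
  -- rank-nullity
  let φ : V M N →ₗ[ℂ] (({z // z ∈ S} → ℂ) × ({z // z ∈ S2} → ℂ)) := (BZT_map E S S2).domRestrict (V M N)
  have hr : LinearMap.range φ = ⊤ := by
    rw [LinearMap.range_eq_top]
    intro v
    obtain ⟨g, hg, hgv⟩ := BZT_surj hINT E S S2 hS2S M N hM2 hN2 v
    exact ⟨⟨g, hg⟩, hgv⟩
  have hrn := LinearMap.finrank_range_add_finrank_ker (K := ℂ) (V := (V M N : Submodule ℂ AA))
    (V₂ := ({z // z ∈ S} → ℂ) × ({z // z ∈ S2} → ℂ)) φ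
  rw [hr, finrank_top, finrank_V, Module.finrank_prod, Module.finrank_fintype_fun_eq_card,
    Module.finrank_fintype_fun_eq_card, Fintype.card_coe, Fintype.card_coe] at hrn
  -- the kernel
  have hk : hd (Ideal.span {E, f}) M N ≤ finrank ℂ (LinearMap.ker φ) := by
    unfold hd
    rw [← Submodule.map_comap_subtype, Submodule.finrank_map_subtype_eq]
    have hnoe := isNoetherian_of_isNoetherianRing_of_finite ℂ (V M N)
    apply Submodule.finrank_mono
    rintro ⟨g, hg⟩ hgs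
    have hgs' : g ∈ Ideal.span {E, f} := hgs
    rw [Ideal.mem_span_pair] at hgs'
    obtain ⟨u, v, huv⟩ := hgs'
    rw [LinearMap.mem_ker]
    show BZT_map E S S2 g = 0
    have hzero : ∀ z ∈ S, ev z E = 0 ∧ ev z f = 0 := by
      intro z hz
      rw [hSdef, Finset.mem_union] at hz
      rcases hz with hz | hz
      · exact ⟨(hS2 z hz).1, (hS2 z hz).2.1⟩
      · exact hS1 z hz
    ext z
    · show ev z.1 g = 0
      obtain ⟨h1, h2⟩ := hzero z.1 z.2
      rw [← huv, ev_add, ev_mul, ev_mul, h1, h2, mul_zero, mul_zero, add_zero]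
    · show BZT_tau E z.1 g = 0
      obtain ⟨h1, h2, h3, h4⟩ := hS2 z.1 z.2
      have hx : ev z.1 (Dx g) = ev z.1 u * ev z.1 (Dx E) := by
        rw [← huv, Dx_add, Dx_mul, Dx_mul, ev_add, ev_add, ev_add, ev_mul, ev_mul, ev_mul, ev_mul, h1, h2, h3]
        ring
      have hy : ev z.1 (Dy g) = ev z.1 u * ev z.1 (Dy E) := by
        rw [← huv, Dy_add, Dy_mul, Dy_mul, ev_add, ev_add, ev_add, ev_mul, ev_mul, ev_mul, ev_mul, h1, h2, h4]
        ring
      unfold BZT_tau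
      rw [hx, hy]
      split_ifs with h
      · rw [h.1, mul_zero]
      · ring
  have hd1 : dX f ≤ i := hf.1
  have hd2 : dY f ≤ j := hf.2
  have h3 : dX E * dY f ≤ j * dX E := by
    rw [mul_comm]
    exact Nat.mul_le_mul_right _ hd2
  have h4 : dX f * dY E ≤ i * dY E := Nat.mul_le_mul_right _ hd1
  unfold ip
  omega

end

end Pool.Agent.HFN
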