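import Pool.Agent.helper78.HFN.Spec

/-!
# Project HFN (MP_3221a1_ag), row CMP: comparison of the two explicit functions
-/

set_option autoImplicit false

open Polynomial Module

namespace Pool.Agent.HFN

noncomputable section

/-- values of units are not zero -/
theorem CMP_ev_unit (z : ℂ × ℂ) (u : AAˣ) : ev z (u : AA) ≠ 0 := by
  intro h
  have h1 : ev z ((u : AA) * ((u⁻¹ : AAˣ) : AA)) = 1 := by
    rw [Units.mul_inv, ev_one]
  rw [ev_mul, h, zero_mul] at h1
  exact zero_ne_one h1

/-- degrees of units -/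
theorem CMP_dX_unit (u : AAˣ) : dX (u : AA) = 0 := by
  have h1 : dX ((u : AA) * ((u⁻¹ : AAˣ) : AA)) = 0 := by
    rw [Units.mul_inv, dX_one]
  rw [dX_mul u.ne_zero (u⁻¹ : AAˣ).ne_zero] at h1
  omega

/-- degrees of units -/
theorem CMP_dY_unit (u : AAˣ) : dY (u : AA) = 0 := by
  have h1 : dY ((u : AA) * ((u⁻¹ : AAˣ) : AA)) = 0 := by
    rw [Units.mul_inv, dY_one]
  rw [dY_mul u.ne_zero (u⁻¹ : AAˣ).ne_zero] at h1
  omega

/-- the excess depends on the class only -/
theorem CMP_assoc (Z : Finset (ℂ × ℂ)) (i j : ℕ) {E E' : AA} (h : Associated E E') :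
    ex (nn Z E) (ip i j E) = ex (nn Z E') (ip i j E') := by
  obtain ⟨u, rfl⟩ := h
  by_cases hE : E = 0
  · rw [hE, zero_mul]
  have h1 : nn Z (E * (u : AA)) = nn Z E := by
    unfold nn
    congr 1
    apply Finset.filter_congr
    intro z _
    rw [ev_mul, mul_eq_zero]
    exact or_iff_left (CMP_ev_unit z u)
  have h2 : ip i j (E * (u : AA)) = ip i j E := by
    unfold ip
    rw [dX_mul hE u.ne_zero, dY_mul hE u.ne_zero, CMP_dX_unit, CMP_dY_unit, add_zero, add_zero]
  rw [h1, h2]

/-- comparison of two sums over classes -/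
theorem CMP_sum (e : AA → ℕ) (he : ∀ E E' : AA, Associated E E' → e E = e E') (m : ℕ) (Cs : Fin m → AA)
    (hCs : ∀ t t', t ≠ t' → ¬ Associated (Cs t) (Cs t')) :
    ∀ (L : List AA) (s : Finset (Fin m)), (L.Pairwise fun C C' => ¬ Associated C C') →
      (∀ E ∈ L, (∃ t ∈ s, Associated E (Cs t)) ∨ e E = 0) → (∀ t ∈ s, (∃ E ∈ L, Associated E (Cs t)) ∨ e (Cs t) = 0) →
      (L.map e).sum = ∑ t ∈ s, e (Cs t) := by
  intro L
  induction L with
  | nil =>
    intro s _ _ h3
    rw [List.map_nil, List.sum_nil, eq_comm]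
    apply Finset.sum_eq_zero
    intro t ht
    rcases h3 t ht with ⟨E, hE, -⟩ | h
    · exact absurd hE List.not_mem_nil
    · exact h
  | cons E L ih =>
    intro s h1 h2 h3
    rw [List.pairwise_cons] at h1
    rw [List.map_cons, List.sum_cons]
    by_cases hE : ∃ t ∈ s, Associated E (Cs t)
    · obtain ⟨t, ht, hEt⟩ := hE
      rw [ih (s.erase t) h1.2 ?_ ?_, ← Finset.add_sum_erase s _ ht, he E (Cs t) hEt]
      · intro E' hE'
        rcases h2 E' (List.mem_cons_of_mem _ hE') with ⟨t', ht', h⟩ | h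
        · left
          refine ⟨t', Finset.mem_erase.2 ⟨?_, ht'⟩, h⟩
          rintro rfl
          exact h1.1 E' hE' (hEt.trans h.symm)
        · exact Or.inr h
      · intro t' ht'
        rw [Finset.mem_erase] at ht'
        rcases h3 t' ht'.2 with ⟨E', hE', h⟩ | h
        · left
          rcases List.mem_cons.1 hE' with rfl | hE'
          · exact absurd (hEt.symm.trans h) (hCs t t' (Ne.symm ht'.1))
          · exact ⟨E', hE', h⟩
        · exact Or.inr h
    · have h4 : e E = 0 := by
        rcases h2 E List.mem_cons_self with h | h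
        · exact absurd h hE
        · exact h
      rw [h4, zero_add]
      apply ih s h1.2
      · intro E' hE'
        exact h2 E' (List.mem_cons_of_mem _ hE')
      · intro t' ht'
        rcases h3 t' ht' with ⟨E', hE', h⟩ | h
        · left
          rcases List.mem_cons.1 hE' with rfl | hE'
          · exact absurd ⟨t', ht', h⟩ hE
          · exact ⟨E', hE', h⟩
        · exact Or.inr h

/-- an element of the list is at most the sum -/
theorem CMP_le_sum (f : AA → ℕ) (L : List AA) (E : AA) (hE : E ∈ L) : f E ≤ (L.map f).sum :=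
  List.single_le_sum (fun _ _ => Nat.zero_le _) _ (List.mem_map_of_mem hE)

/-- no excess -/
theorem CMP_ex {n d : ℕ} (h : 2 * n ≤ d) : ex n d = 0 := by
  unfold ex
  omega

/-- the arithmetic -/
theorem CMP_ar (S T a b N : ℕ) (hS : 3 ≤ S) (hT : 3 ≤ T) (ha : 100 * a ≤ 12 * S) (hb : 100 * b ≤ 12 * T)
    (hN : N + 1 ≤ (a + 1) * (b + 1)) : 2 * N ≤ S * b + T * a := by
  have h1 : 100 * a * b ≤ 12 * S * b := Nat.mul_le_mul_right _ ha
  have h2 : 100 * b * a ≤ 12 * T * a := Nat.mul_le_mul_right _ hb
  have h3 : 3 * a ≤ T * a := Nat.mul_le_mul_right _ hT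
  have h4 : 3 * b ≤ S * b := Nat.mul_le_mul_right _ hS
  nlinarith

theorem CMP : CMP_stmt := by
  intro Z S T hS hT hST L hL hdeg hnot m Cs n hCirr hCne hCn hE i j hi hj
  unfold FL Fn
  have key : (L.map fun C => ex (nn Z C) (ip i j C)).sum = ∑ t, ex (n t) (i * dY (Cs t) + j * dX (Cs t)) := by
    have h0 : ∑ t, ex (n t) (i * dY (Cs t) + j * dX (Cs t)) = ∑ t, ex (nn Z (Cs t)) (ip i j (Cs t)) := by
      apply Finset.sum_congr rfl
      intro t _
      rw [hCn t]
      rfl
    rw [h0]
    refine CMP_sum (fun C => ex (nn Z C) (ip i j C)) (fun E E' h => CMP_assoc Z i j h) m Cs hCne L Finset.univ hL.2 ?_ ?_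
    · intro E hEL
      by_cases h : ∃ t ∈ (Finset.univ : Finset (Fin m)), Associated E (Cs t)
      · exact Or.inl h
      right
      have hirr := hL.1 E hEL
      have h1 : dX E ≤ (L.map dX).sum := CMP_le_sum dX L E hEL
      have h2 : dY E ≤ (L.map dY).sum := CMP_le_sum dY L E hEL
      have h3 : T * dX E ≤ T * (L.map dX).sum := Nat.mul_le_mul_left _ h1
      have h4 : S * dY E ≤ S * (L.map dY).sum := Nat.mul_le_mul_left _ h2
      have h5 : 100 * dX E ≤ 12 * S := by
        have : T * (100 * dX E) ≤ T * (12 * S) := by nlinarith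
        exact Nat.le_of_mul_le_mul_left this (by omega)
      have h6 : 100 * dY E ≤ 12 * T := by
        have : S * (100 * dY E) ≤ S * (12 * T) := by nlinarith
        exact Nat.le_of_mul_le_mul_left this (by omega)
      have h7 := hE E hirr (fun t ht => h ⟨t, Finset.mem_univ t, ht⟩) (by omega) (by omega)
      apply CMP_ex
      have h8 := CMP_ar S T (dX E) (dY E) (nn Z E) hS hT h5 h6 h7
      have h9 : S * dY E ≤ i * dY E := Nat.mul_le_mul_right _ hi
      have h10 : T * dX E ≤ j * dX E := Nat.mul_le_mul_right _ hj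
      unfold ip
      omega
    · intro t _
      by_cases h : ∃ E ∈ L, Associated E (Cs t)
      · exact Or.inl h
      right
      have h1 := hnot (Cs t) (hCirr t) (fun E' hE' ha => h ⟨E', hE', ha.symm⟩)
      apply CMP_ex
      refine h1.trans ?_
      unfold ip
      exact add_le_add (Nat.mul_le_mul_right _ (by omega)) (Nat.mul_le_mul_right _ (by omega))
  rw [key]

end

end Pool.Agent.HFN
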